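import Mathlib

/-! A 3-connected 3-outerplanar triangulated disc without two completely independent spanning
trees (helper135). -/

namespace Pool.Agent.Results.MP_6a18d8_co.StackedDisc

open SimpleGraph

/-- Reversal of darts, as a permutation. -/
def flip {V : Type} (G : SimpleGraph V) : Equiv.Perm G.Dart where
  toFun := Dart.symm
  invFun := Dart.symm
  left_inv := Dart.symm_symm
  right_inv := Dart.symm_symm

/-- A finite connected plane graph with a chosen outer face, given combinatorially: `rot` is the
rotation system (`rot d` is the dart following `d` in the cyclic order around the tail of `d`), the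
faces are the cycles of `rot * flip graph`, the Euler formula `V - E + F = 2` holds, and `outer` is
a dart on the outer face. -/
structure PlaneGraph (V : Type) [Fintype V] where
  graph : SimpleGraph V
  connected : graph.Connected
  rot : Equiv.Perm graph.Dart
  rot_fst : ∀ d, (rot d).fst = d.fst
  rot_sameCycle : ∀ d e : graph.Dart, d.fst = e.fst → rot.SameCycle d e
  euler : Fintype.card V + Nat.card (Quotient (Equiv.Perm.SameCycle.setoid (rot * flip graph))) =
    Nat.card graph.edgeSet + 2
  outer : graph.Dart

namespace PlaneGraph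

variable {V : Type} [Fintype V] (P : PlaneGraph V)

/-- The face permutation: from the dart `(u, v)` to the next dart `(v, w)` of the same face. -/
def face : Equiv.Perm P.graph.Dart := P.rot * flip P.graph

/-- The vertex `v` is incident with the face containing the dart `d`. -/
def OnFace (v : V) (d : P.graph.Dart) : Prop := ∃ e, P.face.SameCycle d e ∧ e.fst = v

/-- Every inner face is a triangle. -/
def IsTriangulatedDisc : Prop :=
  ∀ d, ¬ P.face.SameCycle P.outer d → P.face (P.face (P.face d)) = d

/-- The faces contained in the outer face of the plane graph obtained by deleting the vertex set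
`X`: the outer face itself, and with a face incident with a deleted vertex `x` every other face
incident with `x`. -/
inductive InOuter (X : Set V) : P.graph.Dart → Prop
  | outer (d) : P.face.SameCycle P.outer d → InOuter X d
  | step (d e) (x : V) : InOuter X d → x ∈ X → P.OnFace x d → P.OnFace x e → InOuter X e

/-- The vertices on the outer face of the plane graph obtained by deleting `X`. -/
def outerVertices (X : Set V) : Set V := {v | v ∉ X ∧ ∃ d, P.InOuter X d ∧ P.OnFace v d}

/-- The vertices on the outer face. -/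
def L₃ : Set V := P.outerVertices ∅

/-- The vertices on the outer face after deleting `L₃`. -/
def L₂ : Set V := P.outerVertices P.L₃

/-- The vertices on the outer face after deleting `L₃` and `L₂`. -/
def L₁ : Set V := P.outerVertices (P.L₃ ∪ P.L₂)

/-- The embedding is 3-outerplanar. -/
def IsThreeOuterplanar : Prop := P.L₁ ∪ P.L₂ ∪ P.L₃ = Set.univ

end PlaneGraph

/-- 3-connected graphs: at least four vertices, and connected after deleting any two or fewer. -/
def IsThreeConnected {V : Type} [Fintype V] (G : SimpleGraph V) : Prop :=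
  3 < Fintype.card V ∧ ∀ X : Finset V, X.card ≤ 2 → (G.induce {v | v ∉ X}).Connected

/-- `T₁` and `T₂` are completely independent: for all `u ≠ v` the `u`-`v` paths in `T₁` and `T₂`
have no common edge and no common vertex besides `u` and `v`. -/
def CompletelyIndependent {V : Type} (T₁ T₂ : SimpleGraph V) : Prop :=
  ∀ u v, u ≠ v → ∀ (p : T₁.Walk u v) (q : T₂.Walk u v), p.IsPath → q.IsPath →
    (∀ e ∈ p.edges, e ∉ q.edges) ∧ ∀ w ∈ p.support, w ∈ q.support → w = u ∨ w = v

/-- `G` has two completely independent spanning trees. -/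
def HasTwoCIST {V : Type} (G : SimpleGraph V) : Prop :=
  ∃ T₁ T₂ : SimpleGraph V, T₁ ≤ G ∧ T₂ ≤ G ∧ T₁.IsTree ∧ T₂.IsTree ∧ CompletelyIndependent T₁ T₂

/-! ### General facts on completely independent spanning trees -/

section CIST

variable {V : Type}

/-- inner vertices of a tree -/
def Inner (T : SimpleGraph V) (v : V) : Prop := ∃ a b, a ≠ b ∧ T.Adj v a ∧ T.Adj v b

/-- `x` and `y` are joined by a walk avoiding `v` -/
def Avoid (T : SimpleGraph V) (v x y : V) : Prop := ∃ w : T.Walk x y, v ∉ w.support

theorem Avoid.symm {T : SimpleGraph V} {v x y : V} (h : Avoid T v x y) : Avoid T v y x := by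
  obtain ⟨w, hw⟩ := h
  exact ⟨w.reverse, by simpa using hw⟩

theorem Avoid.trans {T : SimpleGraph V} {v x y z : V} (h : Avoid T v x y) (h' : Avoid T v y z) :
    Avoid T v x z := by
  obtain ⟨w, hw⟩ := h
  obtain ⟨w', hw'⟩ := h'
  refine ⟨w.append w', ?_⟩
  rw [Walk.mem_support_append_iff]
  exact not_or.2 ⟨hw, hw'⟩

theorem not_avoid {T : SimpleGraph V} (hT : T.IsTree) {v a b : V} (hab : a ≠ b) (ha : T.Adj v a)
    (hb : T.Adj v b) : ¬ Avoid T v a b := by
  classical
  rintro ⟨w, hw⟩
  have h1 : v ∉ w.bypass.support := fun h => hw (w.support_bypass_subset_support h)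
  have hp : (Walk.cons ha w.bypass).IsPath := by
    rw [Walk.cons_isPath_iff]
    exact ⟨w.bypass_isPath, h1⟩
  have hq : (Walk.cons hb (Walk.nil : T.Walk b b)).IsPath := by
    rw [Walk.cons_isPath_iff]
    refine ⟨Walk.IsPath.nil, ?_⟩
    simpa using hb.ne
  have := (hT.isAcyclic.subsingleton_path v b).elim ⟨_, hp⟩ ⟨_, hq⟩
  have h2 := congrArg (fun p : T.Path v b => (p : T.Walk v b).length) this
  simp only [Walk.length_cons, Walk.length_nil] at h2
  have h3 : w.bypass.length = 0 := by omega
  exact hab (Walk.eq_of_length_eq_zero h3)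

theorem not_inner_both {T₁ T₂ : SimpleGraph V} (h₁ : T₁.IsTree) (h₂ : T₂.IsTree)
    (h : CompletelyIndependent T₁ T₂) (v : V) : ¬ (Inner T₁ v ∧ Inner T₂ v) := by
  classical
  rintro ⟨⟨a, b, hab, ha, hb⟩, ⟨c, d, hcd, hc, hd⟩⟩
  have key : ∀ x y, x ≠ v → y ≠ v → x ≠ y → Avoid T₁ v x y ∨ Avoid T₂ v x y := by
    intro x y hx hy hxy
    by_contra hcon
    rw [not_or] at hcon
    obtain ⟨p, hp⟩ := (h₁.connected.preconnected x y).exists_isPath
    obtain ⟨q, hq⟩ := (h₂.connected.preconnected x y).exists_isPath
    have hvp : v ∈ p.support := by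
      by_contra hv
      exact hcon.1 ⟨p, hv⟩
    have hvq : v ∈ q.support := by
      by_contra hv
      exact hcon.2 ⟨q, hv⟩
    rcases (h x y hxy p q hp hq).2 v hvp hvq with h | h
    · exact hx h.symm
    · exact hy h.symm
  have hrefl : ∀ x, x ≠ v → Avoid T₂ v x x := fun x hx => ⟨Walk.nil, by simpa using hx.symm⟩
  have nab := not_avoid h₁ hab ha hb
  have ncd := not_avoid h₂ hcd hc hd
  have h2ab : Avoid T₂ v a b := (key a b ha.ne' hb.ne' hab).resolve_left nab
  -- some `z ∈ {c, d}` is not joined to `a` in `T₂ - v`
  obtain ⟨z, hzv, hz⟩ : ∃ z, z ≠ v ∧ ¬ Avoid T₂ v a z := by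
    by_contra hcon
    push Not at hcon
    exact ncd ((hcon c hc.ne').symm.trans (hcon d hd.ne'))
  have hza : a ≠ z := by
    rintro rfl
    exact hz (hrefl a ha.ne')
  have h1 : Avoid T₁ v a z := (key a z ha.ne' hzv hza).resolve_right hz
  have hz' : ¬ Avoid T₂ v b z := fun h' => hz (h2ab.trans h')
  have hzb : b ≠ z := by
    rintro rfl
    exact hz' (hrefl b hb.ne')
  have h2 : Avoid T₁ v b z := (key b z hb.ne' hzv hzb).resolve_right hz'
  exact nab (h1.trans h2.symm)

/-- internal vertices of a path are inner vertices -/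
theorem inner_of_mem_path {T : SimpleGraph V} {u v : V} (p : T.Walk u v) (hp : p.IsPath) :
    ∀ w ∈ p.support, w ≠ u → w ≠ v → Inner T w := by
  induction p with
  | nil => intro w hw h1; simp at hw; exact absurd hw h1
  | @cons u x v h p ih =>
    intro w hw h1 h2
    rw [Walk.cons_isPath_iff] at hp
    rw [Walk.support_cons, List.mem_cons] at hw
    rcases hw with hw | hw
    · exact absurd hw h1
    · by_cases hx : w = x
      · subst hx
        -- `w = x` is not the last vertex
        cases p with
        | nil => exact absurd rfl h2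
        | @cons _ y _ h' p' =>
          refine ⟨u, y, ?_, h.symm, h'⟩
          rintro rfl
          apply hp.2
          rw [Walk.support_cons]
          exact List.mem_cons_of_mem _ p'.start_mem_support
      · exact ih hp.1 w hw hx h2

/-- the neighbour of a non-inner vertex is inner, if there are at least three vertices -/
theorem inner_of_adj {T : SimpleGraph V} (hT : T.Connected) {v w z : V} (hz : z ≠ v) (hz' : z ≠ w)
    (hvw : T.Adj v w) (hv : ¬ Inner T v) : Inner T w := by
  classical
  obtain ⟨p, hp⟩ := (hT.preconnected v z).exists_isPath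
  cases p with
  | nil => exact absurd rfl hz
  | @cons _ x _ h p =>
    have hxw : x = w := by
      by_contra hne
      exact hv ⟨x, w, hne, h, hvw⟩
    subst hxw
    exact inner_of_mem_path _ hp x (by rw [Walk.support_cons]; exact List.mem_cons_of_mem _ p.start_mem_support)
      hvw.ne' (fun h' => hz' h'.symm)

/-- The colouring associated with two completely independent spanning trees. -/
theorem exists_colouring {G : SimpleGraph V} (hV : ∀ v w : V, ∃ z, z ≠ v ∧ z ≠ w)
    (h : HasTwoCIST G) : ∃ c : V → Bool,
      (∀ u v, c u = c v → ∃ p : G.Walk u v, ∀ w ∈ p.support, c w = c u) ∧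
      (∀ v, ∃ w, G.Adj v w ∧ c w ≠ c v) := by
  classical
  obtain ⟨T₁, T₂, hG₁, hG₂, h₁, h₂, hci⟩ := h
  have nib := not_inner_both h₁ h₂ hci
  have exadj : ∀ {T : SimpleGraph V}, T.IsTree → ∀ v, ∃ w, T.Adj v w := by
    intro T hT v
    obtain ⟨z, hz, -⟩ := hV v v
    obtain ⟨p, hp⟩ := (hT.connected.preconnected v z).exists_isPath
    cases p with
    | nil => exact absurd rfl hz
    | @cons _ x _ h p => exact ⟨x, h⟩
  refine ⟨fun v => decide (Inner T₁ v), ?_, ?_⟩
  · intro u v huv
    by_cases hu : Inner T₁ u
    · have hv : Inner T₁ v := by simpa [hu] using huv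
      obtain ⟨p, hp⟩ := (h₁.connected.preconnected u v).exists_isPath
      refine ⟨p.mapLe hG₁, ?_⟩
      intro w hw
      rw [Walk.support_mapLe_eq_support] at hw
      have : Inner T₁ w := by
        by_cases h1 : w = u
        · rw [h1]; exact hu
        by_cases h2 : w = v
        · rw [h2]; exact hv
        exact inner_of_mem_path p hp w hw h1 h2
      simp [this, hu]
    · have hv : ¬ Inner T₁ v := by simpa [hu] using huv
      obtain ⟨p, hp⟩ := (h₂.connected.preconnected u v).exists_isPath
      refine ⟨p.mapLe hG₂, ?_⟩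
      intro w hw
      rw [Walk.support_mapLe_eq_support] at hw
      have : ¬ Inner T₁ w := by
        by_cases h1 : w = u
        · rw [h1]; exact hu
        by_cases h2 : w = v
        · rw [h2]; exact hv
        exact fun h3 => nib w ⟨h3, inner_of_mem_path p hp w hw h1 h2⟩
      simp [this, hu]
  · intro v
    by_cases hv : Inner T₁ v
    · obtain ⟨w, hw⟩ := exadj h₂ v
      obtain ⟨z, hz1, hz2⟩ := hV v w
      have hw2 : Inner T₂ w := inner_of_adj h₂.connected hz1 hz2 hw (fun h => nib v ⟨hv, h⟩)
      refine ⟨w, hG₂ hw, ?_⟩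
      have : ¬ Inner T₁ w := fun h => nib w ⟨h, hw2⟩
      simp [this, hv]
    · obtain ⟨w, hw⟩ := exadj h₁ v
      obtain ⟨z, hz1, hz2⟩ := hV v w
      have hw2 : Inner T₁ w := inner_of_adj h₁.connected hz1 hz2 hw hv
      refine ⟨w, hG₁ hw, ?_⟩
      simp [hw2, hv]

end CIST

/-! ### The example -/

/-- adjacency bits: bit `25 u + v` -/
def tabA : ℕ := 4390187598880257371174511276305069564209921873555586257577126257892629665086761083211285784762539474863694966566693867549201585940436764350584750866712597701838157716131748478439771870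

/-- rotation: 5 bits for each pair `25 u + v` -/
def tabN : ℕ := 6925590074060247498306174096861302061437070511382159788821197216215305101256222409710822445111765706020453391950389498027057978466982005599274944041831502370399335679354258858354001800349460974706271047987982477360227586131334292920720524874547063796765126456371895939142299494356317544678320276713668595860335127712911269950439185556707965341815680411062557232020139854960023310887159835465548283052311247853092922893379316270291703856324982368514752515417562395825502583708826593911902018695003889792749336251426447533151737464363723686531181512966748846002563278173569562663504334129056097529679790630979234821450301932226012427954954814442750004580794379981161120570497859111644489190327688992174158822766009735205033634340388404248178809603989220960479245211845017773019113910525375151971279620536618922615159730668644685362299481884890316461842125104181501194870057752263746175602267864659851368163500088649955680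

/-- inverse rotation -/
def tabP : ℕ := 1385118419353554690493855988964442612062772323690352044949074367651733145371334326477531156811010997341264288880777488217925800028141925408732972105104014207540334007431758577224857465584801838591900089455070723527149144926816148206996877863014002480979019589097652133327096187006887810348691021019929293037206653833489203906900185126262895863510367806471964202439802919673401108977842554986460549719103457101220580081397210769779119283787078035880810975716350495828641545368819645848432407828885600366511935757005443734600967348759935571782935997180566066475726005864326232317652200808775238292235031848532964888713041962489389023542931198544116117556425042550788047120911560756853777984773105937947164463380358081203446041087295918754056821364489851552443095246092438819417720023888379189225451008672129316066480169345712313085113230053210710152176967588544902353441224612742840018226833382850513837657917543346089696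

/-- face labels: 6 bits for each pair -/
def tabL : ℕ := 241305925903073637838652454004588164470102252365501619677533594379350654960559370315400825549585538961100702467721228698167403524109254188876607810238437067775570649643377514218495192147559963787514622518301858069304868467282507226849036475093235410666991960076400451400560686954250906752021416789766376266988508852014571856156269707495823962068057105839662189950270713039206568184072182051274609596131446806584099237410564837769811464824490676837914233701014626464481372119203986163089568338779506465273283314449737806791430757234720203095070574876770835043566353222328888674026710963014951286165530338460245921817884144660584542744692808295786756760252844239001251883029015040318034900274785731075842336569972477843389200454970453529807824765624583351588880191136477544007402729216526696905165493323871791499989137205296138288739239227600418298668197378000992873297139205173372323168480383255657105704918772769818340491346305255185603304787255704575310977061651705643875116219464165008769203469743473562376320511609529651390505329907398312894036913067133905185433576652552443663380220497122820838131968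

/-- a dart for each face: 10 bits each -/
def tabR : ℕ := 355370816382262975975757625168142187566624454235613428597110334447195926189446452981632029836860162755212613801142684843179559938

/-- a neighbour of each vertex: 5 bits each -/
def tabB : ℕ := 1329233070217193857300459370575822849

def adjB (u v : Fin 25) : Bool := tabA.testBit (25 * u.val + v.val)

/-- the neighbour of `u` following `v` in the rotation at `u` -/
def nxt (u v : Fin 25) : Fin 25 := Fin.ofNat 25 ((tabN >>> (5 * (25 * u.val + v.val))) % 32)

/-- the neighbour of `u` preceding `v` in the rotation at `u` -/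
def prv (u v : Fin 25) : Fin 25 := Fin.ofNat 25 ((tabP >>> (5 * (25 * u.val + v.val))) % 32)

def lab (u v : Fin 25) : Fin 43 := Fin.ofNat 43 ((tabL >>> (6 * (25 * u.val + v.val))) % 64)

def rep (l : Fin 43) : Fin 25 × Fin 25 :=
  (Fin.ofNat 25 (((tabR >>> (10 * l.val)) % 1024) / 25),
    Fin.ofNat 25 (((tabR >>> (10 * l.val)) % 1024) % 25))

def nb (u : Fin 25) : Fin 25 := Fin.ofNat 25 ((tabB >>> (5 * u.val)) % 32)

/-- the next dart of the face -/
def fstep (d : Fin 25 × Fin 25) : Fin 25 × Fin 25 := (d.2, nxt d.2 d.1)

set_option maxRecDepth 100000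

theorem chk_symm : ∀ u v, adjB u v = true → adjB v u = true := by decide +kernel

theorem chk_irrefl : ∀ u, adjB u u = false := by decide +kernel

theorem chk_nxt : ∀ u v, adjB u v = true → adjB u (nxt u v) = true ∧ adjB u (prv u v) = true ∧
    prv u (nxt u v) = v ∧ nxt u (prv u v) = v := by decide +kernel

theorem chk_rot : ∀ u v, adjB u v = true → ∃ k : Fin 16, (nxt u)^[k.val] (nb u) = v := by
  decide +kernel

theorem chk_nb : ∀ u, adjB u (nb u) = true := by decide +kernel

theorem chk_lab : ∀ u v, adjB u v = true → lab v (nxt v u) = lab u v := by decide +kernel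

theorem chk_face : ∀ u v, adjB u v = true → ∃ k : Fin 6, fstep^[k.val] (rep (lab u v)) = (u, v) := by
  decide +kernel

theorem chk_rep : ∀ l, adjB (rep l).1 (rep l).2 = true ∧ lab (rep l).1 (rep l).2 = l := by
  decide +kernel

theorem chk_tri : ∀ u v, adjB u v = true → lab u v ≠ 42 → fstep^[3] (u, v) = (u, v) := by
  decide +kernel

/-- the graph of the example -/
def G₀ : SimpleGraph (Fin 25) where
  Adj u v := adjB u v = true
  symm := ⟨chk_symm⟩
  loopless := ⟨fun u h => by rw [chk_irrefl u] at h; exact absurd h (by decide)⟩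

instance : DecidableRel G₀.Adj := fun u v => inferInstanceAs (Decidable (adjB u v = true))

/-- disjoint paths from each vertex to the vertices 0, 1, 2 -/
def fans : List (List (List (Fin 25))) :=
  [[[0], [0, 1], [0, 2]], [[1, 0], [1], [1, 2]], [[2, 0], [2, 1], [2]], [[3, 0], [3, 4, 9, 10,
    1], [3, 7, 6, 2]], [[4, 0], [4, 9, 10, 1], [4, 3, 7, 6, 2]], [[5, 6, 0], [5, 1], [5, 2]],
    [[6, 0], [6, 5, 1], [6, 2]], [[7, 0], [7, 8, 9, 10, 1], [7, 6, 2]], [[8, 3, 0], [8, 9, 10,
    1], [8, 7, 6, 2]], [[9, 0], [9, 10, 1], [9, 8, 7, 6, 2]], [[10, 0], [10, 1], [10, 5, 2]],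
    [[11, 0], [11, 1], [11, 2]], [[12, 5, 6, 0], [12, 1], [12, 2]], [[13, 6, 0], [13, 5, 1],
    [13, 2]], [[14, 0], [14, 6, 5, 1], [14, 2]], [[15, 0], [15, 7, 8, 9, 10, 1], [15, 6, 2]],
    [[16, 0], [16, 3, 4, 9, 10, 1], [16, 7, 6, 2]], [[17, 3, 0], [17, 8, 9, 10, 1], [17, 7, 6,
    2]], [[18, 3, 0], [18, 4, 9, 10, 1], [18, 8, 7, 6, 2]], [[19, 0], [19, 4, 9, 10, 1], [19, 3,
    7, 6, 2]], [[20, 4, 0], [20, 9, 10, 1], [20, 8, 7, 6, 2]], [[21, 0], [21, 9, 10, 1], [21, 4,
    3, 7, 6, 2]], [[22, 0], [22, 10, 1], [22, 9, 8, 7, 6, 2]], [[23, 0], [23, 1], [23, 10, 5,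
    2]], [[24, 10, 0], [24, 1], [24, 5, 2]]]

/-- the rotation of the example -/
def rot₀ : Equiv.Perm G₀.Dart where
  toFun d := ⟨(d.fst, nxt d.fst d.snd), (chk_nxt _ _ d.adj).1⟩
  invFun d := ⟨(d.fst, prv d.fst d.snd), (chk_nxt _ _ d.adj).2.1⟩
  left_inv d := by
    apply Dart.ext
    exact Prod.ext rfl (chk_nxt _ _ d.adj).2.2.1
  right_inv d := by
    apply Dart.ext
    exact Prod.ext rfl (chk_nxt _ _ d.adj).2.2.2

theorem rot₀_pow (d : G₀.Dart) (k : ℕ) :
    ((rot₀ ^ k) d).toProd = (d.fst, (nxt d.fst)^[k] d.snd) := by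
  induction k with
  | zero => rfl
  | succ k ih =>
    rw [pow_succ', Equiv.Perm.mul_apply, Function.iterate_succ_apply']
    change (((rot₀ ^ k) d).fst, nxt ((rot₀ ^ k) d).fst ((rot₀ ^ k) d).snd) = _
    have h1 : ((rot₀ ^ k) d).fst = d.fst := by rw [ih]
    have h2 : ((rot₀ ^ k) d).snd = (nxt d.fst)^[k] d.snd := by rw [ih]
    rw [h1, h2]

theorem rot₀_sameCycle (d e : G₀.Dart) (h : d.fst = e.fst) : rot₀.SameCycle d e := by
  have key : ∀ d : G₀.Dart, rot₀.SameCycle ⟨(d.fst, nb d.fst), chk_nb _⟩ d := by
    intro d
    obtain ⟨k, hk⟩ := chk_rot d.fst d.snd d.adj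
    refine ⟨(k.val : ℤ), ?_⟩
    rw [zpow_natCast]
    apply Dart.ext
    rw [rot₀_pow]
    exact Prod.ext rfl hk
  have h1 := key d
  have h2 := key e
  have h3 : (⟨(d.fst, nb d.fst), chk_nb _⟩ : G₀.Dart) = ⟨(e.fst, nb e.fst), chk_nb _⟩ := by
    apply Dart.ext
    simp only [h]
  rw [h3] at h1
  exact h1.symm.trans h2

/-- the faces of the example -/
def face₀ : Equiv.Perm G₀.Dart := rot₀ * flip G₀

theorem face₀_toProd (d : G₀.Dart) : (face₀ d).toProd = fstep d.toProd := rfl

theorem face₀_pow (d : G₀.Dart) (k : ℕ) : ((face₀ ^ k) d).toProd = fstep^[k] d.toProd := by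
  induction k with
  | zero => rfl
  | succ k ih =>
    rw [pow_succ', Equiv.Perm.mul_apply, Function.iterate_succ_apply', face₀_toProd, ih]

theorem lab_face₀ (d : G₀.Dart) : lab (face₀ d).fst (face₀ d).snd = lab d.fst d.snd :=
  chk_lab d.fst d.snd d.adj

/-- the dart representing a face -/
def repD (l : Fin 43) : G₀.Dart := ⟨rep l, (chk_rep l).1⟩

theorem sameCycle_rep (d : G₀.Dart) : face₀.SameCycle (repD (lab d.fst d.snd)) d := by
  obtain ⟨k, hk⟩ := chk_face d.fst d.snd d.adj
  refine ⟨(k.val : ℤ), ?_⟩
  rw [zpow_natCast]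
  apply Dart.ext
  rw [face₀_pow]
  exact hk

theorem sameCycle_iff (d e : G₀.Dart) :
    face₀.SameCycle d e ↔ lab d.fst d.snd = lab e.fst e.snd := by
  constructor
  · intro h
    have key : ∀ (k : ℕ) (d : G₀.Dart), lab ((face₀ ^ k) d).fst ((face₀ ^ k) d).snd =
        lab d.fst d.snd := by
      intro k
      induction k with
      | zero => intro d; rfl
      | succ k ih =>
        intro d
        rw [pow_succ', Equiv.Perm.mul_apply, lab_face₀, ih]
    obtain ⟨i, hi⟩ := h
    obtain ⟨k, rfl | rfl⟩ := i.eq_nat_or_neg
    · rw [zpow_natCast] at hi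
      rw [← hi, key]
    · rw [zpow_neg, zpow_natCast, Equiv.Perm.inv_eq_iff_eq] at hi
      rw [hi, key]
  · intro h
    have h1 := sameCycle_rep d
    have h2 := sameCycle_rep e
    rw [h] at h1
    exact h1.symm.trans h2

theorem card_faces : Nat.card (Quotient (Equiv.Perm.SameCycle.setoid face₀)) = 43 := by
  have e : Quotient (Equiv.Perm.SameCycle.setoid face₀) ≃ Fin 43 := by
    refine Equiv.ofBijective (Quotient.lift (fun d : G₀.Dart => lab d.fst d.snd)
      (fun d e h => (sameCycle_iff d e).1 h)) ⟨?_, ?_⟩
    · intro x y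
      induction x using Quotient.inductionOn with
      | h x =>
        induction y using Quotient.inductionOn with
        | h y =>
          intro h
          exact Quotient.sound ((sameCycle_iff x y).2 h)
    · intro l
      exact ⟨Quotient.mk _ (repD l), (chk_rep l).2⟩
  rw [Nat.card_congr e, Nat.card_fin]

theorem card_edges : Nat.card G₀.edgeSet = 66 := by
  have h1 := G₀.sum_degrees_eq_twice_card_edges
  have h2 : ∑ v, G₀.degree v = 132 := by decide +kernel
  rw [h2] at h1
  have h3 : G₀.edgeFinset.card = 66 := by omega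
  rw [Nat.card_eq_fintype_card, ← G₀.edgeFinset_card, h3]

/-! ### Connectivity -/

/-- a list is a path of `G₀` -/
def isChainB : List (Fin 25) → Bool
  | [] => true
  | [_] => true
  | a :: b :: l => adjB a b && isChainB (b :: l)

def fan (v : Fin 25) (i : Fin 3) : List (Fin 25) := (fans.getD v.val []).getD i.val []

theorem chk_fan : ∀ (v : Fin 25) (i : Fin 3), isChainB (fan v i) = true ∧
    (fan v i).head? = some v ∧ (fan v i).getLast? = some (Fin.ofNat 25 i.val) := by decide +kernel

theorem chk_fan_disjoint : ∀ (v : Fin 25) (i j : Fin 3), i ≠ j → ∀ w ∈ fan v i, w ∈ fan v j →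
    w = v := by decide +kernel

theorem chk_root : ∀ i j : Fin 3, i ≠ j →
    adjB (Fin.ofNat 25 i.val) (Fin.ofNat 25 j.val) = true := by decide +kernel

theorem reach_of_chain (S : Set (Fin 25)) (l : List (Fin 25)) : ∀ (a b : Fin 25),
    isChainB l = true → l.head? = some a → l.getLast? = some b → (hl : ∀ w ∈ l, w ∈ S) →
    ∀ (ha : a ∈ S) (hb : b ∈ S), (G₀.induce S).Reachable ⟨a, ha⟩ ⟨b, hb⟩ := by
  induction l with
  | nil => intro a b _ h; simp at h
  | cons x l ih =>
    intro a b hc hh hlast hl ha hb
    rw [List.head?_cons, Option.some_inj] at hh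
    subst hh
    cases l with
    | nil =>
      rw [List.getLast?_singleton, Option.some_inj] at hlast
      subst hlast
      exact Reachable.refl _
    | cons y l =>
      have hc' : adjB x y = true ∧ isChainB (y :: l) = true := by
        rw [isChainB, Bool.and_eq_true] at hc
        exact hc
      have hy : y ∈ S := hl y (List.mem_cons_of_mem _ List.mem_cons_self)
      have h1 := ih y b hc'.2 rfl (by rw [List.getLast?_cons_cons] at hlast; exact hlast)
        (fun w hw => hl w (List.mem_cons_of_mem _ hw)) hy hb
      have h2 : (G₀.induce S).Adj ⟨x, ha⟩ ⟨y, hy⟩ := hc'.1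
      exact h2.reachable.trans h1

theorem connected_induce (X : Finset (Fin 25)) (hX : X.card ≤ 2) :
    (G₀.induce {v | v ∉ X}).Connected := by
  -- every vertex outside `X` reaches some root outside `X`
  have key : ∀ v : Fin 25, (hv : v ∉ X) → ∃ i : Fin 3, ∃ hi : (Fin.ofNat 25 i.val) ∉ X,
      (G₀.induce {v | v ∉ X}).Reachable ⟨v, hv⟩ ⟨Fin.ofNat 25 i.val, hi⟩ := by
    intro v hv
    by_contra hcon
    have hbad : ∀ i : Fin 3, ∃ w ∈ fan v i, w ∈ X := by
      intro i
      by_contra hc
      push Not at hc
      apply hcon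
      have hmem : (Fin.ofNat 25 i.val) ∈ fan v i := List.mem_of_getLast? (chk_fan v i).2.2
      exact ⟨i, hc _ hmem, reach_of_chain _ (fan v i) v _ (chk_fan v i).1 (chk_fan v i).2.1
        (chk_fan v i).2.2 hc hv (hc _ hmem)⟩
    choose w hw hwX using hbad
    have hinj : Function.Injective w := by
      intro i j hij
      by_contra hne
      have h1 := chk_fan_disjoint v i j hne (w i) (hw i) (hij ▸ hw j)
      exact hv (h1 ▸ hwX i)
    have h3 : (Finset.univ.image w).card = 3 := by
      rw [Finset.card_image_of_injective _ hinj]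
      rfl
    have h4 : (Finset.univ.image w).card ≤ X.card := by
      apply Finset.card_le_card
      intro y hy
      rw [Finset.mem_image] at hy
      obtain ⟨i, -, rfl⟩ := hy
      exact hwX i
    omega
  have hpre : (G₀.induce {v | v ∉ X}).Preconnected := by
    rintro ⟨u, hu⟩ ⟨v, hv⟩
    obtain ⟨i, hi, h1⟩ := key u hu
    obtain ⟨j, hj, h2⟩ := key v hv
    by_cases hij : i = j
    · subst hij
      exact h1.trans h2.symm
    · have h3 : (G₀.induce {v | v ∉ X}).Adj ⟨Fin.ofNat 25 i.val, hi⟩ ⟨Fin.ofNat 25 j.val, hj⟩ :=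
        chk_root i j hij
      exact (h1.trans h3.reachable).trans h2.symm
  have hne : ∃ v : Fin 25, v ∉ X := by
    by_contra hcon
    push Not at hcon
    have : Finset.univ ⊆ X := fun v _ => hcon v
    have := Finset.card_le_card this
    rw [Finset.card_univ, Fintype.card_fin] at this
    omega
  obtain ⟨v, hv⟩ := hne
  exact { preconnected := hpre, nonempty := ⟨⟨v, hv⟩⟩ }

theorem threeConnected : IsThreeConnected G₀ :=
  ⟨by rw [Fintype.card_fin]; norm_num, connected_induce⟩

theorem connected₀ : G₀.Connected := by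
  have h := connected_induce ∅ (by simp)
  have hpre : G₀.Preconnected := by
    intro u v
    have h1 := h.preconnected ⟨u, by simp⟩ ⟨v, by simp⟩
    exact h1.map (Embedding.induce _).toHom
  exact { preconnected := hpre, nonempty := ⟨0⟩ }

/-- The plane graph of the example. -/
def P₀ : PlaneGraph (Fin 25) where
  graph := G₀
  connected := connected₀
  rot := rot₀
  rot_fst := fun _ => rfl
  rot_sameCycle := rot₀_sameCycle
  euler := by
    change Fintype.card (Fin 25) + Nat.card (Quotient (Equiv.Perm.SameCycle.setoid face₀)) = _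
    rw [card_faces, card_edges, Fintype.card_fin]
  outer := repD 42

theorem disc : P₀.IsTriangulatedDisc := by
  intro d hd
  have h1 : lab (repD 42).fst (repD 42).snd = 42 := (chk_rep 42).2
  have h2 : lab d.fst d.snd ≠ 42 := by
    intro h
    apply hd
    exact (sameCycle_iff (repD 42) d).2 (h1.trans h.symm)
  apply Dart.ext
  exact chk_tri d.fst d.snd d.adj h2

/-! ### Layers -/

section Layers

variable {V : Type} [Fintype V] (P : PlaneGraph V)

theorem inOuter_mono {X Y : Set V} (h : X ⊆ Y) {d : P.graph.Dart} (hd : P.InOuter X d) :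
    P.InOuter Y d := by
  induction hd with
  | outer d hd => exact PlaneGraph.InOuter.outer d hd
  | step d e x _ hx h1 h2 ih => exact PlaneGraph.InOuter.step d e x ih (h hx) h1 h2

theorem onFace_fst (d : P.graph.Dart) : P.OnFace d.fst d := ⟨d, Equiv.Perm.SameCycle.refl _ _, rfl⟩

theorem onFace_snd (d : P.graph.Dart) : P.OnFace d.snd d := by
  refine ⟨P.face d, ⟨1, by simp⟩, ?_⟩
  change (P.rot d.symm).fst = d.snd
  rw [P.rot_fst]
  rfl

theorem mem_next {X Y : Set V} {v w : V} (hw : w ∈ P.outerVertices X) (hXY : X ⊆ Y) (hwY : w ∈ Y)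
    (hvw : P.graph.Adj v w) (hv : v ∉ Y) : v ∈ P.outerVertices Y := by
  obtain ⟨-, d, hd, hwd⟩ := hw
  refine ⟨hv, ⟨(v, w), hvw⟩, ?_, onFace_fst P ⟨(v, w), hvw⟩⟩
  exact PlaneGraph.InOuter.step d _ w (inOuter_mono P hXY hd) hwY hwd (onFace_snd P ⟨(v, w), hvw⟩)

theorem mem_L₂ {v w : V} (hw : w ∈ P.L₃) (hvw : P.graph.Adj v w) : v ∈ P.L₃ ∪ P.L₂ := by
  by_cases hv : v ∈ P.L₃
  · exact Or.inl hv
  · exact Or.inr (mem_next P hw (Set.empty_subset _) hw hvw hv)

theorem mem_L₁ {v w : V} (hw : w ∈ P.L₃ ∪ P.L₂) (hvw : P.graph.Adj v w) :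
    v ∈ P.L₁ ∪ P.L₂ ∪ P.L₃ := by
  by_cases hv : v ∈ P.L₃ ∪ P.L₂
  · rcases hv with hv | hv
    · exact Or.inr hv
    · exact Or.inl (Or.inr hv)
  · refine Or.inl (Or.inl ?_)
    rcases hw with hw | hw
    · exact mem_next P hw (Set.empty_subset _) (Or.inl hw) hvw hv
    · exact mem_next P hw Set.subset_union_left (Or.inr hw) hvw hv

end Layers

theorem chk_outer : ∀ v : Fin 25, 5 ≤ v.val → v.val ≤ 10 →
    ∃ w, adjB v w = true ∧ lab v w = 42 := by decide +kernel

theorem chk_layer : ∀ v : Fin 25, (5 ≤ v.val ∧ v.val ≤ 10) ∨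
    (∃ w : Fin 25, (5 ≤ w.val ∧ w.val ≤ 10) ∧ adjB v w = true) ∨ adjB v 0 = true := by
  decide +kernel

theorem outerplanar : P₀.IsThreeOuterplanar := by
  have h3 : ∀ v : Fin 25, 5 ≤ v.val → v.val ≤ 10 → v ∈ P₀.L₃ := by
    intro v h1 h2
    obtain ⟨w, hw, hl⟩ := chk_outer v h1 h2
    refine ⟨Set.notMem_empty _, ⟨(v, w), hw⟩, ?_, onFace_fst P₀ ⟨(v, w), hw⟩⟩
    apply PlaneGraph.InOuter.outer
    exact (sameCycle_iff (repD 42) ⟨(v, w), hw⟩).2 (((chk_rep 42).2).trans hl.symm)
  have h0 : (0 : Fin 25) ∈ P₀.L₃ ∪ P₀.L₂ := by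
    have h6 : P₀.graph.Adj 0 6 := (by decide +kernel : adjB 0 6 = true)
    exact mem_L₂ P₀ (h3 6 (by decide) (by decide)) h6
  apply Set.eq_univ_of_forall
  intro v
  rcases chk_layer v with h | ⟨w, hw, hvw⟩ | h
  · exact Or.inr (h3 v h.1 h.2)
  · rcases mem_L₂ P₀ (h3 w hw.1 hw.2) hvw with h | h
    · exact Or.inr h
    · exact Or.inl (Or.inr h)
  · exact mem_L₁ P₀ h0 h

/-! ### No two completely independent spanning trees -/

theorem chk_clique : ∀ x : Fin 25, 11 ≤ x.val → ∀ a, adjB x a = true → a.val < 11 ∧
    ∀ b, adjB x b = true → a = b ∨ adjB a b = true := by decide +kernel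

/-- the vertices of the inner triangulated disc -/
def emb (u : Fin 11) : Fin 25 := u.castLE (by norm_num)

theorem emb_inj {u v : Fin 11} (h : emb u = emb v) : u = v :=
  Fin.ext (show u.val = v.val from congrArg (fun x : Fin 25 => x.val) h)

theorem exists_emb (x : Fin 25) (hx : x.val < 11) : ∃ u : Fin 11, emb u = x :=
  ⟨⟨x.val, hx⟩, rfl⟩

/-- `S` is a nonempty union of components, but not everything, of the disc restricted to `cls` -/
def Sep (cls S : ℕ) : Prop :=
  (∃ u : Fin 11, S.testBit u.val = true) ∧
  (∀ u : Fin 11, S.testBit u.val = true → cls.testBit u.val = true) ∧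
  (∃ v : Fin 11, cls.testBit v.val = true ∧ S.testBit v.val = false) ∧
  ∀ u w : Fin 11, S.testBit u.val = true → cls.testBit w.val = true →
    adjB (emb u) (emb w) = true → S.testBit w.val = true

instance (cls S : ℕ) : Decidable (Sep cls S) := by
  unfold Sep
  infer_instance

def cloStep (cls S : ℕ) : ℕ :=
  (List.range 11).foldl (fun R u => if R.testBit u then R ||| ((tabA >>> (25 * u)) % 2048 &&& cls)
    else R) S

def low (cls : ℕ) : ℕ := ((List.range 11).find? (fun i => cls.testBit i)).elim 0 (fun i => 2 ^ i)

def clo (cls : ℕ) : ℕ := cloStep cls (cloStep cls (cloStep cls (cloStep cls (cloStep cls (low cls)))))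

/-- the corners of the stacked vertex `11 + i` -/
def cor (i : ℕ) : ℕ := (tabA >>> (25 * (11 + i))) % 2 ^ 11

/-- every face is bichromatic -/
def bichB (m : ℕ) : Bool := (List.range 14).all fun i => (cor i &&& m != 0) && (cor i &&& m != cor i)

theorem chk_final : ∀ m : Fin 2048, bichB m.val = true →
    Sep m.val (clo m.val) ∨ Sep (m.val ^^^ 2047) (clo (m.val ^^^ 2047)) := by
  decide +kernel

theorem testBit_cor (i : ℕ) (hi : i < 14) (a : Fin 11)
    (h : adjB ⟨11 + i, by omega⟩ (emb a) = true) : (cor i).testBit a.val = true := by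
  unfold cor
  rw [Nat.testBit_mod_two_pow, Nat.testBit_shiftRight]
  have h1 : tabA.testBit (25 * (11 + i) + a.val) = true := h
  rw [h1, Bool.and_true, decide_eq_true_eq]
  exact a.isLt

section Colouring

variable (c : Fin 25 → Bool)
  (hw : ∀ u v, c u = c v → ∃ p : G₀.Walk u v, ∀ w ∈ p.support, c w = c u)

include hw

theorem no_sep (cls S : ℕ) (χ : Bool) (hcls : ∀ u : Fin 11, cls.testBit u.val = true ↔ c (emb u) = χ)
    (hs : Sep cls S) : False := by
  obtain ⟨⟨u₀, hu₀⟩, hsub, ⟨v₀, hv₀, hv₀'⟩, hclosed⟩ := hs
  have hcu : c (emb u₀) = χ := (hcls u₀).1 (hsub u₀ hu₀)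
  have hcv : c (emb v₀) = χ := (hcls v₀).1 hv₀
  obtain ⟨p, hp⟩ := hw (emb u₀) (emb v₀) (hcu.trans hcv.symm)
  let Good : Fin 25 → Prop := fun x => (∃ u : Fin 11, x = emb u ∧ S.testBit u.val = true) ∨
    (11 ≤ x.val ∧ ∃ u : Fin 11, adjB x (emb u) = true ∧ S.testBit u.val = true)
  have step : ∀ x y, Good x → adjB x y = true → c y = χ → Good y := by
    intro x y hx hxy hy
    rcases hx with ⟨u, rfl, hu⟩ | ⟨hx11, u, hxu, hu⟩
    · by_cases hy11 : 11 ≤ y.val
      · exact Or.inr ⟨hy11, u, chk_symm _ _ hxy, hu⟩
      · obtain ⟨w, rfl⟩ := exists_emb y (by omega)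
        exact Or.inl ⟨w, rfl, hclosed u w hu ((hcls w).2 hy) hxy⟩
    · obtain ⟨hy11, hcl⟩ := chk_clique x hx11 y hxy
      obtain ⟨w, rfl⟩ := exists_emb y hy11
      rcases hcl (emb u) hxu with h | h
      · have := emb_inj h
        subst this
        exact Or.inl ⟨w, rfl, hu⟩
      · exact Or.inl ⟨w, rfl, hclosed u w hu ((hcls w).2 hy) (chk_symm _ _ h)⟩
  have walk : ∀ x y (p : G₀.Walk x y), (∀ w ∈ p.support, c w = χ) → Good x → Good y := by
    intro x y p
    induction p with
    | nil => intro _ h; exact h
    | @cons x y z h p ih =>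
      intro hc hx
      have hy : c y = χ := hc y (by rw [Walk.support_cons]; exact List.mem_cons_of_mem _ p.start_mem_support)
      exact ih (fun w hw => hc w (by rw [Walk.support_cons]; exact List.mem_cons_of_mem _ hw))
        (step x y hx h hy)
  have hgood := walk _ _ p (fun w hw => (hp w hw).trans hcu) (Or.inl ⟨u₀, rfl, hu₀⟩)
  rcases hgood with ⟨u, hu, hu'⟩ | ⟨h11, -⟩
  · have := emb_inj hu
    subst this
    rw [hv₀'] at hu'
    exact absurd hu' (by decide)
  · have : (emb v₀).val < 11 := v₀.isLt
    omega

theorem bichromatic (ho : ∀ v, ∃ w, G₀.Adj v w ∧ c w ≠ c v) (x : Fin 25) (hx : 11 ≤ x.val) :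
    ∃ a b : Fin 11, adjB x (emb a) = true ∧ adjB x (emb b) = true ∧ c (emb a) = true ∧
      c (emb b) = false := by
  obtain ⟨b, hxb, hcb⟩ := ho x
  obtain ⟨a, hxa, hca⟩ : ∃ a, adjB x a = true ∧ c a = c x := by
    obtain ⟨y, hy, hyx⟩ : ∃ y : Fin 25, 11 ≤ y.val ∧ y ≠ x := by
      by_cases h : x = 11
      · exact ⟨12, by decide, by rw [h]; decide⟩
      · exact ⟨11, by decide, Ne.symm h⟩
    obtain ⟨w, hyw, hcw⟩ := ho y
    obtain ⟨z, hzx, hcz⟩ : ∃ z, z ≠ x ∧ c z = c x := by
      by_cases hc : c y = c x
      · exact ⟨y, hyx, hc⟩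
      · refine ⟨w, ?_, ?_⟩
        · rintro rfl
          have := (chk_clique y hy w hyw).1
          omega
        · cases h1 : c w <;> cases h2 : c y <;> cases h3 : c x <;> simp_all
    obtain ⟨p, hp⟩ := hw x z hcz.symm
    cases p with
    | nil => exact absurd rfl hzx
    | @cons _ a _ h p =>
      exact ⟨a, h, hp a (by rw [Walk.support_cons]; exact List.mem_cons_of_mem _ p.start_mem_support)⟩
  obtain ⟨a', rfl⟩ := exists_emb a (chk_clique x hx a hxa).1
  obtain ⟨b', rfl⟩ := exists_emb b (chk_clique x hx b hxb).1
  cases h : c x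
  · refine ⟨b', a', hxb, hxa, ?_, by rw [hca, h]⟩
    rw [h] at hcb
    simpa using hcb
  · refine ⟨a', b', hxa, hxb, by rw [hca, h], ?_⟩
    rw [h] at hcb
    simpa using hcb

end Colouring

theorem no_cist : ¬ HasTwoCIST G₀ := by
  intro h
  obtain ⟨c, hw, ho⟩ := exists_colouring (by decide +kernel) h
  let m : ℕ := Nat.ofBits (fun i : Fin 11 => c (emb i))
  have hm : m < 2048 := Nat.ofBits_lt_two_pow _
  have hbit : ∀ u : Fin 11, m.testBit u.val = c (emb u) := fun u =>
    Nat.testBit_ofBits_lt _ u.val u.isLt
  have hbich : bichB m = true := by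
    unfold bichB
    rw [List.all_eq_true]
    intro i hi
    rw [List.mem_range] at hi
    obtain ⟨a, b, ha, hb, hca, hcb⟩ := bichromatic c hw ho ⟨11 + i, by omega⟩ (by simp)
    have h1 := testBit_cor i hi a ha
    have h2 := testBit_cor i hi b hb
    rw [Bool.and_eq_true]
    constructor
    · rw [bne_iff_ne]
      intro h0
      have h3 : (cor i &&& m).testBit a.val = true := by
        rw [Nat.testBit_and, h1, hbit, hca]
        rfl
      rw [h0, Nat.zero_testBit] at h3
      exact absurd h3 (by decide)
    · rw [bne_iff_ne]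
      intro h0
      have h3 : (cor i &&& m).testBit b.val = false := by
        rw [Nat.testBit_and, h2, hbit, hcb]
        rfl
      rw [h0, h2] at h3
      exact absurd h3 (by decide)
  rcases chk_final ⟨m, hm⟩ hbich with hs | hs
  · exact no_sep c hw m _ true (fun u => by rw [hbit]) hs
  · refine no_sep c hw (m ^^^ 2047) _ false (fun u => ?_) hs
    have h5 : (2047 : ℕ).testBit u.val = true := by
      have : ∀ u : Fin 11, (2047 : ℕ).testBit u.val = true := by decide
      exact this u
    rw [Nat.testBit_xor, hbit, h5]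
    cases c (emb u) <;> simp

/-- There is a 3-connected triangulated disc whose embedding is 3-outerplanar and which has no two
completely independent spanning trees. -/
theorem result : ∃ P : PlaneGraph (Fin 25), IsThreeConnected P.graph ∧ P.IsTriangulatedDisc ∧
    P.IsThreeOuterplanar ∧ ¬ HasTwoCIST P.graph :=
  ⟨P₀, threeConnected, disc, outerplanar, no_cist⟩

end Pool.Agent.Results.MP_6a18d8_co.StackedDisc
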